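import Pool.Agent.W_MP_d9e517_lc_h72.Examples

/-!
Boolean combinations of `∃∀`-sentences, in the language of rings expanded by all local relations
(all properties of a tuple `x` that depend only on the relative algebraic closure of `F(x)`
together with `x`), cannot detect the parity of the transcendence degree. The problem is the case
`F = ℚ`.
-/

namespace Pool.Agent.Results.MP_d9e517_lc.SigmaTwo

open FirstOrder FirstOrder.Language Pool.Agent.W_MP_d9e517_lc_h72

theorem result :
    -- (1) the truth values are eventually constant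
    (∀ (F : Type) [Field F] [CharZero F] (φ : (locLang F).Sentence), IsBoolSigma2 φ →
      ∃ N : ℕ, ∀ m n : ℕ, N ≤ m → N ≤ n → ((RF F m ⊨ φ) ↔ (RF F n ⊨ φ))) ∧
    -- (2) no sentence of the language of rings which is equivalent, in all `F(t_1, ..., t_n)` with
    -- `n` large, to such a sentence detects parity
    (∀ (F : Type) [Field F] [CharZero F] (θ : FirstOrder.Language.ring.Sentence),
      (∃ φ : (locLang F).Sentence, IsBoolSigma2 φ ∧
        ∃ n₀ : ℕ, ∀ n : ℕ, n₀ ≤ n → (RingSat F n θ ↔ (RF F n ⊨ φ))) →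
      ¬ ∀ n : ℕ, 1 ≤ n → (RingSat F n θ ↔ Even n)) ∧
    -- (3) in particular for Boolean combinations of `∃∀`-sentences of the language of rings
    (∀ θ : FirstOrder.Language.ring.Sentence, IsBoolSigma2 θ →
      ¬ ∀ n : ℕ, 1 ≤ n → (RingSat ℚ n θ ↔ Even n)) ∧
    -- (4) every isomorphism invariant property of the pair `(cl x, x)` is a local relation
    (∀ (F : Type) [Field F] (ι : Type)
      (P : ∀ (M : Type) [Field M] [Algebra F M], (ι → M) → Prop),
      (∀ (M M' : Type) [Field M] [Algebra F M] [Field M'] [Algebra F M'] (e : M ≃ₐ[F] M')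
        (u : ι → M), P M u ↔ P M' (fun i => e (u i))) →
      ∃ ρ : LocalRel F ι, ∀ (K : Type) [Field K] [Algebra F K] (x : ι → K),
        ρ.holds K x ↔ P (cl (F := F) x) (fun i => ⟨x i, mem_cl x i⟩)) := by
  have h2 : ∀ (F : Type) [Field F] [CharZero F] (θ : FirstOrder.Language.ring.Sentence),
      (∃ φ : (locLang F).Sentence, IsBoolSigma2 φ ∧
        ∃ n₀ : ℕ, ∀ n : ℕ, n₀ ≤ n → (RingSat F n θ ↔ (RF F n ⊨ φ))) →
      ¬ ∀ n : ℕ, 1 ≤ n → (RingSat F n θ ↔ Even n) := by
    rintro F _ _ θ ⟨φ, hφ, n₀, hn₀⟩ hpar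
    obtain ⟨N, hN⟩ := eventually_of_isBoolSigma2 hφ
    have key : ∀ m n, n₀ + N + 1 ≤ m → n₀ + N + 1 ≤ n → (Even m ↔ Even n) := by
      intro m n hm hn
      rw [← hpar m (by omega), ← hpar n (by omega), hn₀ m (by omega), hn₀ n (by omega)]
      exact hN m n (by omega) (by omega)
    have h3 := key (2 * (n₀ + N + 1)) (2 * (n₀ + N + 1) + 1) (by omega) (by omega)
    have h4 : Even (2 * (n₀ + N + 1)) := even_two_mul _
    have h5 := h3.1 h4
    rw [Nat.even_add_one] at h5
    exact h5 h4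
  refine ⟨fun F _ _ φ hφ => eventually_of_isBoolSigma2 hφ, h2, fun θ hθ => ?_,
    fun F _ ι P hP => ⟨LocalRel.ofClosure P hP, fun K _ _ x => Iff.rfl⟩⟩
  exact h2 ℚ θ ⟨(ringLHom ℚ).onSentence θ, isBoolSigma2_onSentence hθ, 0,
    fun n _ => ringSat_iff ℚ n θ⟩

end Pool.Agent.Results.MP_d9e517_lc.SigmaTwo
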